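import Pool.Agent.R852.BM.Det

set_option autoImplicit false

/-! # The strong motivic monodromy conjecture for forms over determinantal ideals

Let `x` be the generic matrix of one of the three spaces `S` of matrices: all `m × n` matrices, the
symmetric `n × n` matrices, the skew symmetric `n × n` matrices (`MSpace`). Two kinds of polynomials
are treated, where always `p t < min (m, n)`, `p t < n`, or `2 (p t) + 1 < n` (`Small`):

* `f = ∏ t, F_t ^ a t`, `a t > 0`, with `F_t = ∑_j y_{t,j} M_j(x)`, where the `M_j` are the
  `p t`-minors of `x` (the Pfaffians of size `2 (p t)` in the skew symmetric case) and the `y_{t,j}`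
  are further variables, separate for each `t < T` (`detForm`, with integral coefficients);
* `F = ∑_j y_j M_j(x)`, where the `M_j` are the products of one `p t`-minor of `x` (one Pfaffian of
  size `2 (p t)`) for each `t < T` (`detUniv`, with integral coefficients).

The motivic zeta function `𝕃 ^ (-n) ∑_{l ≥ 0} [X_l] 𝕃 ^ (-n l) T ^ l`, `X_l` the set of the `l`-jets
`φ` with `φ(0) ∈ W` and `ord f(φ) = l`, is defined in the Grothendieck ring of complex varieties,
localised at `𝕃` (`zetaMot f W`). By the formula of Denef and Loeser it is `Z_f^mot` for
`W = Set.univ`, and `Z_{f,0}^mot` for `W = {0}`. No resolution is used: the jets are divided by the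
orders of the ideals of the minors; where an entry (or, for symmetric and skew symmetric matrices, a
principal minor of size `1` or `2`) is a unit, the Schur complement reduces to a smaller matrix;
where `x(0) = 0` one divides by `t`, which gives the denominators `1 - 𝕃 ^ (-ν_d) T ^ (N_d)`, `ν_d`
the codimension of the matrices of rank `≤ d` (`≤ 2 d`), `N_d = ∑ t, a t max (p t - d, 0)` (all
`a t = 1` for the second kind); the linear conditions on the jets of `y` give the denominators
`1 - 𝕃 ^ (-1) T ^ (a t)`.

The proof for the roots: a functional equation of `f` gives a functional equation of the product of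
the powers `I_t ^ a t` of the ideals of the minors, with the same `b` (`locEq_of_powProd`; for one
form and `a = 1` this is one direction of a theorem of Mustata, 2019), and the exceptional divisors
over the rank loci are Rees divisors of this ideal; the roots `-1 / a t` come from the strict
transforms (`strict_root`). -/

namespace Pool.Agent.Results.MP_b07157_ag.DeterminantalForms

open MvPolynomial Pool.Agent.H628R4.TP Pool.Agent.TH192.DT Pool.Agent.TH192.MT
  Pool.Agent.TH192.MU Pool.Agent.W428.MOT Pool.Agent.R852.BM

/-- **The strong monodromy conjecture for the motivic zeta functions, global (Q1), local at the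
origin (Q2) and with the origin of the arcs in any constructible set `W`, of the forms over
determinantal ideals.** Let `f` be one of the two polynomials `detForm S p a`, `detUniv S p` described
above (over `ℂ`), and let `b` be a polynomial with `b(s) f ^ s = P(s) f ^ (s + 1)`, `P(s)` in the Weyl
algebra, for example the Bernstein-Sato polynomial `b_f`, or more generally with `P(s)` a
differential operator with (formal) power series at the origin as coefficients, for example the
local Bernstein-Sato polynomial `b_{f,0}`. Then `zetaMot f W` lies, for every constructible set `W`,
in the subring of `𝓜[[T]]` generated by `𝓜`, `T` and the `1 / (1 - 𝕃 ^ q₁ T ^ q₂)`, `q₁ < 0 < q₂`, with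
`b(q₁ / q₂) = 0`; so every pole `s₀` of `zetaMot f W` (`IsPoleU`, the definition of the problem) is a
root of `b`. This is the meaning of `StrongMot f`. -/
theorem result (S : MSpace) (T : ℕ) (p a : Fin T → ℕ) (hp : ∀ t, S.Small (p t))
    (ha : ∀ t, 0 < a t) :
    StrongMot (map (Int.castRingHom ℂ) (detForm S p a)) ∧
    StrongMot (map (Int.castRingHom ℂ) (detUniv S p)) :=
  ⟨strongMot_of _ _ (form_roots S T p a hp ha) fun _ hW => zetaM_memL S T p a hp ha hW,
    strongMot_of _ _ (univ_roots S T p hp) fun _ hW => zetaM_univ S T p hp hW⟩

end Pool.Agent.Results.MP_b07157_ag.DeterminantalForms
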