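import Pool.Agent.Y228.RR.Top
import Pool.Agent.R852.BM.Rees

set_option autoImplicit false

/-! # The strong motivic monodromy conjecture for products of powers of forms over ideals with Rees
divisors

Let `g t j ∈ ℂ[x_i]`, `t ∈ T`, be generators of ideals `I_t ≠ 0` (no condition on the dimension, on
the number of the ideals or on their zero sets), let `F_t = ∑_j y_{t,j} g t j`, where the `y_{t,j}`
are further variables, separate for each `t` (`blockForm`), and let `f = ∏ t, F_t ^ a t` (`powProd`).
Let `Y` be a log resolution of the product of the `I_t` with `a t > 0`, with the components `E_i`,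
`i ∈ I`, let `k i` be the multiplicity of `E_i` in the relative canonical divisor and `m i t` the order
of `I_t` along `E_i`. Locally on `Y` the form `F_t` is one of the `g t j` times
`y_{t,j} + ∑_{i ≠ j} h_i y_{t,i}`, so it is a monomial times a function whose zero locus is smooth;
these zero loci, for the different `t`, cross each other and the `E_i` normally. Hence `Y` times the
space of the `y` is an embedded resolution of `f`, with the components `E_i`, of multiplicity
`N_i = ∑ t, a t * m i t` (and `ν_i = k i + 1`), and, for `a t > 0`, the strict transform of `F_t = 0`, of
multiplicity `a t` (and `ν = 1`): `mulR`, `nuR`.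

So the motivic zeta functions `Z_f^mot` and `Z_{f,0}^mot` of the problem, computed on this resolution,
are of the form `dlZ = ∑_J c_J ∏_{i ∈ J} u ^ (-ν_i) T ^ (N_i) / (1 - u ^ (-ν_i) T ^ (N_i))`, with `u = 𝕃`,
`R = 𝓜 = K₀(Var_ℂ)[𝕃⁻¹]` and `c_J = 𝕃 ^ (-n) (𝕃 - 1) ^ |J| [E_J°]`, respectively with
`[E_J° ∩ h⁻¹(0)]` in the place of `[E_J°]`. The theorem: if the `E_i` which occur in a stratum with
`c_J ≠ 0` are Rees divisors of the product of the ideals, or if at least their numbers `-ν_i / N_i`
come from Rees divisors (`FromRees`), then every pole of the motivic zeta function is a root of the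
Bernstein-Sato polynomial of `f`, respectively of the local Bernstein-Sato polynomial at the origin.
(As `E_i` is irreducible and meets the fibre over the origin in the local case, there is, for every
polynomial `H` with `H(0) ≠ 0`, a general point of `E_i` over a point at which `H` does not vanish; a
Rees divisor `E_i` has a chart there.)

The proof: a functional equation of `f` gives a functional equation of the product of the powers of
the ideals, with the same `b` (`locEq_of_powProd`); a Rees divisor of this product gives roots, by a
residue computation at a general point of `E_i` (`rees_prod`); the roots `-1 / a t` come from the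
strict transforms (`strict_root`). -/

namespace Pool.Agent.Results.MP_b07157_ag.ReesProducts

open Pool.Agent.H628R4.TP Pool.Agent.TH192.DT Pool.Agent.Y231.RF Pool.Agent.Y228.RR
  Pool.Agent.R852.BM

/-- **The strong monodromy conjecture for the motivic zeta functions of products of powers of forms
over ideals whose exceptional divisors are Rees divisors, global (Q1) and local at the origin (Q2).**
Let `Z` be a series of the form of the formula of Denef and Loeser for `f = ∏ t, F_t ^ a t`,
`F_t = ∑_j y_{t,j} g t j`, on the resolution described above, with arbitrary coefficients `χ J` in a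
commutative ring `R` with a unit `u` (`R = 𝓜`, `u = 𝕃`). (1) If the numbers `-ν_i / N_i` of the
components `E_i` which occur in a `J` with `χ J ≠ 0` come from Rees divisors, and
`b(s) f ^ s = P(s) f ^ (s + 1)` with `P(s)` in the Weyl algebra (in particular if `b` is the
Bernstein-Sato polynomial `b_f`), then `Z` lies in the ring generated over `R` by `T` and the
`1 / (1 - u ^ q₁ T ^ q₂)`, `q₁ < 0 < q₂`, with `b(q₁ / q₂) = 0` (`RootPairs b`); so every pole of `Z` is
a root of `b`. (2) If the numbers `-ν_i / N_i` of the components `E_i` which occur in a `J` with
`χ J ≠ 0` come from Rees divisors near the origin, the same holds for every `b` with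
`b(s) f ^ s = P(s) f ^ (s + 1)`, `P(s)` a differential operator with formal (in particular convergent)
power series at the origin as coefficients, in particular for the local Bernstein-Sato polynomial
`b_{f,0}`.

`FromRees g a H ν N` says that `ν / N = (k_E + 1 + l) / N_E` for a Rees divisor `E` of the product of
the ideals `I_t` with `a t ≠ 0` and a general point of `E` over a point of the affine space at which
`H` does not vanish, where `k_E` is the multiplicity of `E` in the relative canonical divisor, `N_E`
is the order of `∏ t, I_t ^ a t` along `E`, and `l < N_E` is the order along `E` of some polynomial (for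
instance `1`, with `l = 0`); for a component `E_i` which is itself a Rees divisor this is so with
`E = E_i` and `l = 0`.

`Chart g` is a formal chart of the resolution at a point `p` of a prime divisor `E` over the affine
space: power series `ξ i` (the coordinates `x i` of the affine space), in formal coordinates at `p`
one of which, `z`, is the equation of `E`, whose Jacobian determinant is `z ^ k` times a unit, and
for which each `I_t` becomes `(z ^ m t)`. `E.IsRees A` says that the map from `E` to the product of
the affine space and of the projective spaces of the generators of the `I_t`, `t ∈ A`, is unramified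
at `p`: some functions which together with `z` are formal coordinates at `p` are pull-backs of
polynomials or of quotients `(∑ j, c_j g s j) / g s (j0 s)`, `s ∈ A`. This is so at the general points
of a divisor `E` if and only if `E` is a Rees divisor of the product of the `I_t`, `t ∈ A` (it is not
contracted in the blow-up of the product). -/
theorem result {σ T I : Type} [Fintype σ] [DecidableEq σ] [Fintype T] [DecidableEq T] [Fintype I]
    {κ : T → Type} [∀ t, Fintype (κ t)] [∀ t, DecidableEq (κ t)]
    (g : (t : T) → κ t → MvPolynomial σ ℂ) (hg : ∀ t, ∃ j, g t j ≠ 0) (a : T → ℕ)
    (k : I → ℕ) (m : I → T → ℕ) (R : Type) [CommRing R] (u : Rˣ)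
    (χ : Finset {x // 0 < mulR a m x} → R) (b : Polynomial ℂ)
    (h : (IsBFunction (powProd a g) b ∧
        ∀ i, (∃ J, χ J ≠ 0 ∧ ∃ x ∈ J, x.1 = Sum.inl i) →
          FromRees g a 1 (k i + 1) (∑ t, a t * m i t)) ∨
      (IsLocalBFunction (powProd a g) b ∧
        ∀ i, (∃ J, χ J ≠ 0 ∧ ∃ x ∈ J, x.1 = Sum.inl i) →
          ∀ H : MvPolynomial σ ℂ, MvPolynomial.constantCoeff H ≠ 0 →
            FromRees g a H (k i + 1) (∑ t, a t * m i t))) :
    dlZ u (nuR k T) (mulR a m) χ ∈ ratU u (RootPairs b) ∧
      ∀ s₀ : ℚ, IsPoleU u (dlZ u (nuR k T) (mulR a m) χ) s₀ → b.eval (s₀ : ℂ) = 0 :=
  rees_mot g hg a k m u χ b h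

end Pool.Agent.Results.MP_b07157_ag.ReesProducts
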